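import Pool.Agent.W147.LF.Stm

set_option autoImplicit false

/-!
Project LF, part PELIRR: the Pellet-Stickelberger formula for an irreducible polynomial over a
finite field (the argument of Pool.Agent.W611.BL.PEL1, in the algebraic closure).
-/

open Polynomial Finset Pool.Agent.W147.LF

namespace Pool.Agent.W361.LF

lemma prod_pairs {L : Type*} [CommRing L] {d : ℕ} (v : Fin d → L) :
    (-1 : L) ^ (d * (d - 1) / 2) * ∏ i, ∏ j ∈ ({i}ᶜ : Finset (Fin d)), (v i - v j) =
      (Matrix.vandermonde v).det ^ 2 := by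
  rw [← Finset.prod_prod_Ioi_mul_eq_prod_prod_off_diag (fun j i => v i - v j),
    Matrix.det_vandermonde]
  have h1 : ∀ i : Fin d, ∏ j ∈ Ioi i, (v i - v j) * (v j - v i) =
      (-1) ^ (d - 1 - (i : ℕ)) * (∏ j ∈ Ioi i, (v j - v i)) ^ 2 := by
    intro i
    have : ∀ j ∈ Ioi i, (v i - v j) * (v j - v i) = (-1) * (v j - v i) ^ 2 := by
      intro j _; ring
    rw [Finset.prod_congr rfl this, Finset.prod_mul_distrib, Finset.prod_const, Fin.card_Ioi,
      Finset.prod_pow]
  rw [Finset.prod_congr rfl (fun i _ => h1 i), Finset.prod_mul_distrib, Finset.prod_pow,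
    Finset.prod_pow_eq_pow_sum]
  have h2 : ∑ i : Fin d, (d - 1 - (i : ℕ)) = d * (d - 1) / 2 := by
    rw [Fin.sum_univ_eq_sum_range (fun i => d - 1 - i), Finset.sum_range_reflect (fun i => i) d,
      Finset.sum_range_id]
  rw [h2, ← mul_assoc, ← pow_add]
  have : Even (d * (d - 1) / 2 + d * (d - 1) / 2) := ⟨_, rfl⟩
  rw [this.neg_one_pow, one_mul]

/-- The Frobenius multiplies the Vandermonde determinant of a Frobenius orbit by `(-1)^(d+1)`. -/
lemma frob_det {K L : Type*} [Field K] [Fintype K] [Field L] [Algebra K L] (n : ℕ) (θ : L)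
    (hθ : θ ^ (Fintype.card K ^ (n + 1)) = θ) :
    (Matrix.vandermonde (fun i : Fin (n + 1) => θ ^ (Fintype.card K ^ (i : ℕ)))).det ^
        Fintype.card K =
      (-1) ^ n *
        (Matrix.vandermonde (fun i : Fin (n + 1) => θ ^ (Fintype.card K ^ (i : ℕ)))).det := by
  set v : Fin (n + 1) → L := fun i => θ ^ (Fintype.card K ^ (i : ℕ)) with hv
  have h1 : (Matrix.vandermonde v).det ^ Fintype.card K =
      FiniteField.frobeniusAlgHom K L (Matrix.vandermonde v).det := rfl
  rw [h1, AlgHom.map_det]
  have h2 : (FiniteField.frobeniusAlgHom K L).mapMatrix (Matrix.vandermonde v) =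
      (Matrix.vandermonde v).submatrix (finRotate (n + 1)) id := by
    ext i j
    rw [AlgHom.mapMatrix_apply, Matrix.map_apply, Matrix.submatrix_apply, Matrix.vandermonde_apply,
      Matrix.vandermonde_apply, map_pow, id]
    congr 1
    show (v i) ^ Fintype.card K = v (finRotate (n + 1) i)
    simp only [hv]
    rw [← pow_mul, ← pow_succ]
    rcases Fin.eq_castSucc_or_eq_last i with ⟨k, rfl⟩ | rfl
    · rw [finRotate_apply]
      simp
    · rw [finRotate_last]
      simpa using hθ
  rw [h2, Matrix.det_permute, sign_finRotate]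
  simp

/-- The roots of an irreducible polynomial in an algebraically closed field form a Frobenius
orbit. -/
lemma exists_orbit {K : Type} [Field K] [Fintype K] (P : K[X]) (hP : P.Monic)
    (hirr : Irreducible P) (n : ℕ) (hn : P.natDegree = n + 1) :
    ∃ θ : AlgebraicClosure K, θ ^ (Fintype.card K ^ (n + 1)) = θ ∧
      Function.Injective (fun i : Fin (n + 1) => θ ^ (Fintype.card K ^ (i : ℕ))) ∧
      ∀ i : Fin (n + 1), aeval (θ ^ (Fintype.card K ^ (i : ℕ))) P = 0 := by
  have : Fact (Irreducible P) := ⟨hirr⟩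
  have hP0 : P ≠ 0 := hP.ne_zero
  set q := Fintype.card K with hq
  let L := AdjoinRoot P
  let pb := AdjoinRoot.powerBasis hP0
  have : Module.Finite K L := pb.finite
  have : Finite L := Module.finite_of_finite K
  have hfr : Module.finrank K L = n + 1 := by
    rw [pb.finrank]; exact hn
  let θ : L := AdjoinRoot.root P
  have hpow : ∀ (k : ℕ) (x : L), (FiniteField.frobeniusAlgHom K L ^ k) x = x ^ (q ^ k) := by
    intro k x
    rw [AlgHom.coe_pow, FiniteField.coe_frobeniusAlgHom, pow_iterate]
  have hθ : θ ^ (q ^ (n + 1)) = θ := by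
    rw [← hpow, ← hfr, ← FiniteField.orderOf_frobeniusAlgHom K L, pow_orderOf_eq_one]
    rfl
  let v : Fin (n + 1) → L := fun i => θ ^ (q ^ (i : ℕ))
  have hvinj : Function.Injective v := by
    intro i j hij
    have h1 : FiniteField.frobeniusAlgHom K L ^ (i : ℕ) = FiniteField.frobeniusAlgHom K L ^ (j : ℕ) := by
      apply AdjoinRoot.algHom_ext
      rw [hpow, hpow]
      exact hij
    have h3 := (FiniteField.bijective_frobeniusAlgHom_pow K L).1
    have := @h3 (finCongr hfr.symm i) (finCongr hfr.symm j) (by simpa using h1)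
    simpa using this
  have hroot : ∀ i, aeval (v i) P = 0 := by
    intro i
    have : v i = (FiniteField.frobeniusAlgHom K L ^ (i : ℕ)) θ := (hpow _ _).symm
    rw [this, aeval_algHom_apply]
    have h0 : aeval θ P = 0 := by
      rw [AdjoinRoot.aeval_eq, AdjoinRoot.mk_self]
    rw [h0, map_zero]
  let σ : L →ₐ[K] AlgebraicClosure K := IsAlgClosed.lift
  refine ⟨σ θ, ?_, ?_, ?_⟩
  · rw [← map_pow, hθ]
  · intro i j hij
    apply hvinj
    apply σ.injective
    simpa [v, map_pow] using hij
  · intro i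
    have := hroot i
    rw [← map_pow, aeval_algHom_apply]
    change σ (aeval (v i) P) = 0
    rw [this, map_zero]

theorem t_PelIrr : S_PelIrr := by
  classical
  intro K _ _ hodd P hP hirr
  have hP0 : P ≠ 0 := hP.ne_zero
  have hd : 0 < P.natDegree := hirr.natDegree_pos
  obtain ⟨n, hn⟩ : ∃ n, P.natDegree = n + 1 := ⟨P.natDegree - 1, by omega⟩
  obtain ⟨θ, hθ, hvinj, hroot⟩ := exists_orbit P hP hirr n hn
  set q := Fintype.card K with hqd
  set v : Fin (n + 1) → AlgebraicClosure K := fun i => θ ^ (q ^ (i : ℕ)) with hv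
  set PL : (AlgebraicClosure K)[X] := P.map (algebraMap K (AlgebraicClosure K)) with hPL
  have hPLm : PL.Monic := hP.map _
  have hPLd : PL.natDegree = n + 1 := by rw [hPL, natDegree_map, hn]
  have hroots : PL.roots = (Finset.univ : Finset (Fin (n + 1))).val.map v := by
    symm
    apply Multiset.eq_of_le_of_card_le
    · rw [Multiset.le_iff_subset ((Finset.univ : Finset (Fin (n + 1))).nodup.map hvinj)]
      intro x hx
      rw [Multiset.mem_map] at hx
      obtain ⟨i, _, rfl⟩ := hx
      rw [mem_roots hPLm.ne_zero, IsRoot.def, hPL, eval_map_algebraMap]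
      exact hroot i
    · rw [Multiset.card_map]
      refine (card_roots' _).trans ?_
      rw [hPLd]; simp
  have hsplit : PL.Splits := by
    rw [splits_iff_card_roots, hroots, Multiset.card_map, hPLd]
    simp
  have hder : ∀ i, eval (v i) (derivative PL) = ∏ j ∈ ({i}ᶜ : Finset (Fin (n + 1))), (v i - v j) := by
    intro i
    rw [hsplit.eval_root_derivative hPLm (by rw [hroots]; exact Multiset.mem_map_of_mem _ (Finset.mem_univ i)),
      hroots, ← Multiset.map_erase v hvinj, Multiset.map_map, Finset.compl_eq_univ_sdiff,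
      Finset.sdiff_singleton_eq_erase]
    rfl
  have hrs : R P (derivative P) = ∏ i, ∏ j ∈ ({i}ᶜ : Finset (Fin (n + 1))), (v i - v j) := by
    unfold R
    have e1 : P.aroots (AlgebraicClosure K) = PL.roots := rfl
    rw [e1, hroots, Multiset.map_map]
    show ∏ i, _ = _
    apply Finset.prod_congr rfl
    intro i _
    rw [← hder i, hPL, derivative_map, eval_map_algebraMap]
    rfl
  set δ : AlgebraicClosure K := (Matrix.vandermonde v).det with hδ
  have hδ0 : δ ≠ 0 := Matrix.det_vandermonde_ne_zero_iff.mpr hvinj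
  have hxδ : (-1 : AlgebraicClosure K) ^ (P.natDegree * (P.natDegree - 1) / 2) *
      R P (derivative P) = δ ^ 2 := by
    rw [hrs, hn]
    exact prod_pairs v
  have hδq : δ ^ q = (-1) ^ n * δ := frob_det n θ hθ
  have hq1 : q % 2 = 1 := Nat.odd_iff.1 hodd
  have hδq1 : δ ^ (q - 1) = (-1) ^ n := by
    have h3 : δ ^ (q - 1) * δ = (-1) ^ n * δ := by
      rw [← pow_succ, Nat.sub_add_cancel (by omega), hδq]
    exact mul_right_cancel₀ hδ0 h3
  set s : AlgebraicClosure K := (-1) ^ (P.natDegree * (P.natDegree - 1) / 2) with hs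
  have hss : s * s = 1 := by
    rw [hs, ← mul_pow]
    simp
  have hR : R P (derivative P) = s * δ ^ 2 := by
    rw [← hxδ, ← mul_assoc, hss, one_mul]
  rw [hR, mul_pow, ← pow_mul δ 2 (hq K)]
  have h2 : 2 * hq K = q - 1 := by
    unfold hq
    rw [← hqd]
    omega
  rw [h2, hδq1, hn, show n + 1 + 1 = n + 2 from rfl, pow_add (-1 : AlgebraicClosure K) n 2,
    neg_one_sq, mul_one]

end Pool.Agent.W361.LF
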